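import Pool.Agent.Results.MP_0b15c0_nt.SquareRootExceptions
import Pool.Agent.Results.MP_0b15c0_nt.ProportionOfPrimeWitnesses
import Pool.Agent.Y854.GM.Win

/-!
# Small witnesses for the strong pseudoprimality test: all integers in windows of power length

Let `v ≥ 1` be a sequence with exponent of convergence at most `τ` (for `v_k = (k + 1) ^ a` this is `1 / a`, for
`v_k = b ^ k` it is `0`) and `θ < 1`. For all `α > 0` outside a set of Hausdorff dimension at most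
`(1 / A + τ) / (1 - θ)` and all large `k` EVERY integer `n` with `|n - α v_k| ≤ v_k ^ θ` is prime or has a witness
`1 < b ≤ 2 (log n) ^ A`, and for every `δ > 0` at least the proportion `1 - 2 ^ (-j) - δ` of the primes up to
`2 (log n) ^ A` are witnesses if `n` is composite, where `j ≥ 1` is any integer with `1 - 1 / j ≤ 1 / A`; for other `j`
the dimension is at most `(1 - 1 / j + τ) / (1 - θ)`.
-/

set_option autoImplicit false

namespace Pool.Agent.Results.MP_0b15c0_nt.AllIntegersInWindows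

open Finset
open ProportionOfPrimeWitnesses (IsWitness PrimesUpTo)

/-- the exponent of convergence of the sequence `v` is at most `τ` -/
def ExpLe (v : ℕ → ℝ) (τ : ℝ) : Prop := ∀ t : ℝ, τ < t → Summable (fun k : ℕ => (v k) ^ (-t))

/-- `n` is prime, or at least the proportion `κ` of the primes up to `2 (log n) ^ A` are witnesses for `n` -/
def Rich (A κ : ℝ) (n : ℕ) : Prop :=
  n.Prime ∨ κ * ((PrimesUpTo (2 * (Real.log n) ^ A)).ncard : ℝ) ≤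
    (({b : ℕ | b ∈ PrimesUpTo (2 * (Real.log n) ^ A) ∧ IsWitness n b}.ncard : ℕ) : ℝ)

/-- `n` is prime or has a witness `1 < b ≤ 2 (log n) ^ A`. -/
def Decided (A : ℝ) (n : ℕ) : Prop :=
  n.Prime ∨ ∃ b : ℕ, 1 < b ∧ (b : ℝ) ≤ 2 * (Real.log n) ^ A ∧ IsWitness n b

open Classical in
lemma count {P : ℕ → Prop} {s : ℝ} (hs : 0 ≤ s) (Exc : ℕ → Set ℕ)
    (hExc : ∀ x n : ℕ, n ≤ x → 2 ≤ n → ¬ P n → n ∈ Exc x)
    (hcount : ∀ ε : ℝ, 0 < ε → ∃ K : ℝ, ∀ x : ℕ, 1 ≤ x → (Exc x).Finite ∧ ((Exc x).ncard : ℝ) ≤ K * (x : ℝ) ^ (s + ε))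
    (ε : ℝ) (hε : 0 < ε) : ∃ C : ℝ, ∀ X : ℕ, 1 ≤ X →
    (((Ioc 0 X).filter (fun n => n ∈ {n : ℕ | ¬ (2 ≤ n ∧ P n)})).card : ℝ) ≤ C * (X : ℝ) ^ (s + ε) := by
  obtain ⟨K, hK⟩ := hcount ε hε
  refine ⟨K + 1, fun X hX => ?_⟩
  obtain ⟨hfin, hcard⟩ := hK X hX
  have hXp : (1 : ℝ) ≤ X := by exact_mod_cast hX
  have h1 : (((Ioc 0 X).filter (fun n => n ∈ {n : ℕ | ¬ (2 ≤ n ∧ P n)}) : Finset ℕ) : Set ℕ) ⊆ Exc X ∪ {1} := by
    intro n hn
    rw [mem_coe, mem_filter, mem_Ioc] at hn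
    obtain ⟨⟨h1, h2⟩, h3⟩ := hn
    by_cases h4 : 2 ≤ n
    · exact Or.inl (hExc X n h2 h4 fun hP => h3 ⟨h4, hP⟩)
    · right
      rw [Set.mem_singleton_iff]
      omega
  have h2 := Set.ncard_le_ncard h1 (hfin.union (Set.finite_singleton 1))
  rw [Set.ncard_coe_finset] at h2
  have h3 := h2.trans (Set.ncard_union_le _ _)
  rw [Set.ncard_singleton] at h3
  have h4 : (((Ioc 0 X).filter (fun n => n ∈ {n : ℕ | ¬ (2 ≤ n ∧ P n)})).card : ℝ) ≤ (Exc X).ncard + 1 := by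
    exact_mod_cast h3
  have h5 : (1 : ℝ) ≤ (X : ℝ) ^ (s + ε) := Real.one_le_rpow hXp (by positivity)
  nlinarith

/-- the windows for a property with few exceptions -/
lemma windows {P : ℕ → Prop} {s : ℝ} (hs : 0 ≤ s) (Exc : ℕ → Set ℕ)
    (hExc : ∀ x n : ℕ, n ≤ x → 2 ≤ n → ¬ P n → n ∈ Exc x)
    (hcount : ∀ ε : ℝ, 0 < ε → ∃ K : ℝ, ∀ x : ℕ, 1 ≤ x → (Exc x).Finite ∧ ((Exc x).ncard : ℝ) ≤ K * (x : ℝ) ^ (s + ε))
    {v : ℕ → ℝ} {τ θ : ℝ} (hv : ∀ k, 1 ≤ v k) (hτ : 0 ≤ τ) (hE : ExpLe v τ) (hθ : θ < 1) :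
    ∃ E : Set ℝ, dimH E ≤ ENNReal.ofReal ((s + τ) / (1 - θ)) ∧ ∀ α : ℝ, 0 < α → α ∉ E →
      ∃ k₀ : ℕ, ∀ k : ℕ, k₀ ≤ k → ∀ n : ℕ, |(n : ℝ) - α * v k| ≤ (v k) ^ θ → 2 ≤ n ∧ P n := by
  classical
  obtain ⟨E, hE1, hE2⟩ := Pool.Agent.Y854.GM.win_nat {n : ℕ | ¬ (2 ≤ n ∧ P n)} (θ := θ) hv hτ hE hs hθ
    (fun ε hε => by
      obtain ⟨C, hC⟩ := count hs Exc hExc hcount ε hε
      refine ⟨C, fun X hX => ?_⟩
      convert hC X hX using 3
      ext t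
      simp only [Finset.mem_filter])
  refine ⟨E, hE1, fun α hα hαE => ?_⟩
  obtain ⟨k₀, hk⟩ := hE2 α hα hαE
  refine ⟨k₀, fun k hkk n hn => ?_⟩
  have h := (hk k hkk n hn).2
  by_contra hcon
  exact h hcon

/-- **All integers in windows of power length.** Let `v ≥ 1` be a sequence of exponent of convergence at most `τ ≥ 0`,
`θ < 1`, `A ≥ 2` and `j ≥ 1`.
(1) For all `α > 0` outside a set of Hausdorff dimension at most `(1 / A + τ) / (1 - θ)` and all large `k` every integer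
`n` with `|n - α v_k| ≤ v_k ^ θ` is prime or has a witness `1 < b ≤ 2 (log n) ^ A`.
(2) For all `α > 0` outside a set of Hausdorff dimension at most `(max (1 - 1 / j) (1 / A) + τ) / (1 - θ)`, every `δ > 0`
and all large `k`, for every composite `n` with `|n - α v_k| ≤ v_k ^ θ` at least the proportion `1 - 1 / 2 ^ j - δ` of
the primes up to `2 (log n) ^ A` are witnesses.
(3) The sequences `v_k = (k + 1) ^ a` and `v_k = b ^ k` have exponent of convergence at most `1 / a` and `0`. -/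
theorem result :
    (∀ (A : ℝ), 2 ≤ A → ∀ (v : ℕ → ℝ) (τ θ : ℝ), (∀ k, 1 ≤ v k) → 0 ≤ τ → ExpLe v τ → θ < 1 →
      (∃ E : Set ℝ, dimH E ≤ ENNReal.ofReal ((1 / A + τ) / (1 - θ)) ∧ ∀ α : ℝ, 0 < α → α ∉ E →
        ∃ k₀ : ℕ, ∀ k : ℕ, k₀ ≤ k → ∀ n : ℕ, |(n : ℝ) - α * v k| ≤ (v k) ^ θ → 2 ≤ n ∧ Decided A n) ∧
      (∀ j : ℕ, 1 ≤ j → ∃ E : Set ℝ, dimH E ≤ ENNReal.ofReal ((max (1 - 1 / (j : ℝ)) (1 / A) + τ) / (1 - θ)) ∧
        ∀ α : ℝ, 0 < α → α ∉ E → ∀ δ : ℝ, 0 < δ →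
        ∃ k₀ : ℕ, ∀ k : ℕ, k₀ ≤ k → ∀ n : ℕ, |(n : ℝ) - α * v k| ≤ (v k) ^ θ →
          2 ≤ n ∧ Rich A (1 - 1 / 2 ^ j - δ) n)) ∧
    (∀ a : ℝ, 0 < a → ExpLe (fun k : ℕ => ((k : ℝ) + 1) ^ a) (1 / a)) ∧
    (∀ b : ℝ, 1 < b → ExpLe (fun k : ℕ => b ^ k) 0) := by
  refine ⟨fun A hA v τ θ hv hτ hE hθ => ⟨?_, fun j hj => ?_⟩, fun a ha => Pool.Agent.Y854.GM.expLe_pow a ha,
    fun b hb => Pool.Agent.Y854.GM.expLe_geom b hb⟩
  · refine windows (P := Decided A) (by positivity) (SquareRootExceptions.Exceptions A) ?_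
      (fun ε hε => SquareRootExceptions.result A ε hA hε) hv hτ hE hθ
    intro x n hnx hn2 hP
    refine ⟨hnx, hn2, fun hp => hP (Or.inl hp), fun hw => hP (Or.inr ?_)⟩
    obtain ⟨b, hb1, hb2, hb3⟩ := hw
    exact ⟨b, hb1, hb2, hb3⟩
  · have hs : 0 ≤ max (1 - 1 / (j : ℝ)) (1 / A) := le_trans (by positivity) (le_max_right _ _)
    have hall : ∀ m : ℕ, ∃ E : Set ℝ, dimH E ≤ ENNReal.ofReal ((max (1 - 1 / (j : ℝ)) (1 / A) + τ) / (1 - θ)) ∧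
        ∀ α : ℝ, 0 < α → α ∉ E → ∃ k₀ : ℕ, ∀ k : ℕ, k₀ ≤ k → ∀ n : ℕ, |(n : ℝ) - α * v k| ≤ (v k) ^ θ →
          2 ≤ n ∧ Rich A (1 - 1 / 2 ^ j - 1 / ((m : ℝ) + 1)) n := by
      intro m
      have hm : (0 : ℝ) < 1 / ((m : ℝ) + 1) := by positivity
      refine windows (P := Rich A (1 - 1 / 2 ^ j - 1 / ((m : ℝ) + 1))) hs
        (ProportionOfPrimeWitnesses.Exceptions (1 - 1 / 2 ^ j - 1 / ((m : ℝ) + 1))
          (fun n => PrimesUpTo (2 * (Real.log n) ^ A))) ?_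
        (fun ε hε => (ProportionOfPrimeWitnesses.result j hj A (1 / ((m : ℝ) + 1)) ε hA hm hε).1) hv hτ hE hθ
      intro x n hnx hn2 hP
      refine ⟨hnx, hn2, fun hp => hP (Or.inl hp), ?_⟩
      by_contra hcon
      exact hP (Or.inr (not_lt.1 hcon))
    choose E hE1 hE2 using hall
    refine ⟨⋃ m, E m, ?_, fun α hα hαE δ hδ => ?_⟩
    · rw [dimH_iUnion]
      exact iSup_le hE1
    · obtain ⟨m, hm⟩ := exists_nat_ge (1 / δ)
      obtain ⟨k₀, hk⟩ := hE2 m α hα (fun h => hαE (Set.mem_iUnion.2 ⟨m, h⟩))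
      refine ⟨k₀, fun k hkk n hn => ?_⟩
      obtain ⟨h2, hR⟩ := hk k hkk n hn
      refine ⟨h2, ?_⟩
      rcases hR with hp | hR
      · exact Or.inl hp
      · right
        refine le_trans (mul_le_mul_of_nonneg_right ?_ (Nat.cast_nonneg _)) hR
        have h3 : 1 / ((m : ℝ) + 1) ≤ δ := by
          rw [div_le_iff₀ (by positivity)]
          rw [div_le_iff₀ hδ] at hm
          nlinarith
        linarith

end Pool.Agent.Results.MP_0b15c0_nt.AllIntegersInWindows
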