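import Pool.Agent.Results.MP_0b15c0_nt.AllIntegersInWindows
import Pool.Agent.H223.PS.Both

/-!
# Small witnesses for the strong pseudoprimality test: all integers in the residue classes of almost every `p`-adic integer

Let `A ≥ 2`. For every prime `p` and `σ > 0`, for all `p`-adic integers `α` outside of a set of Hausdorff dimension at most
`1 / (A σ)` and all large `T`, EVERY integer `2 ≤ n ≤ T` with `|n - α|_p ≤ T ^ (-σ)` (that is, in the residue class of `α`
modulo the power of `p` of order `T ^ σ`) is prime or has a witness `1 < b ≤ 2 (log n) ^ A`: about `T ^ (1 - σ)` integers, with no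
exception, for almost all `α` if `σ > 1 / A`. For `A = 2` these are the witnesses asked for in the problem. Likewise, outside of
a set of dimension at most `max (1 - 1 / j) (1 / A) / σ`, for all these composite `n` at least the proportion `1 - 2 ^ (-j) - δ`
of the primes up to `2 (log n) ^ A` are witnesses.
-/

set_option autoImplicit false

open MeasureTheory Filter Finset

namespace Pool.Agent.Results.MP_0b15c0_nt.IntegersInResidueClasses

open ProportionOfPrimeWitnesses (IsWitness PrimesUpTo)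
open AllIntegersInWindows (Decided Rich)

/-- for all large `T` all integers `2 ≤ n ≤ T` with `|n - α|_p ≤ T ^ (-σ)` have the property `G` -/
def AllInClasses (p : ℕ) [Fact p.Prime] (σ : ℝ) (α : ℤ_[p]) (G : ℕ → Prop) : Prop :=
  ∃ T₀ : ℝ, ∀ T ≥ T₀, ∀ n : ℕ, 2 ≤ n → (n : ℝ) ≤ T → ‖(n : ℤ_[p]) - α‖ ≤ T ^ (-σ) → G n

/-- **Theorem.** Let `A ≥ 2`, `p` a prime and `σ > 0`. (1) For all `p`-adic integers `α` outside of a set of Hausdorff dimension
at most `1 / (A σ)` and all large `T` every integer `2 ≤ n ≤ T` with `|n - α|_p ≤ T ^ (-σ)` is prime or has a witness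
`1 < b ≤ 2 (log n) ^ A`. (2) For `j ≥ 1` and all `α` outside of a set of dimension at most `max (1 - 1 / j) (1 / A) / σ`, every
`δ > 0` and all large `T`, for every such composite `n` at least the proportion `1 - 2 ^ (-j) - δ` of the primes up to
`2 (log n) ^ A` are witnesses. -/
theorem result (A : ℝ) (hA : 2 ≤ A) (p : ℕ) [Fact p.Prime] (σ : ℝ) (hσ : 0 < σ) :
    (∃ E : Set ℤ_[p], dimH E ≤ ENNReal.ofReal (1 / A / σ) ∧ ∀ α ∉ E, AllInClasses p σ α (Decided A)) ∧
    (∀ j : ℕ, 1 ≤ j → ∃ E : Set ℤ_[p], dimH E ≤ ENNReal.ofReal (max (1 - 1 / (j : ℝ)) (1 / A) / σ) ∧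
      ∀ α ∉ E, ∀ δ : ℝ, 0 < δ → AllInClasses p σ α (Rich A (1 - 1 / 2 ^ j - δ))) := by
  classical
  refine ⟨?_, fun j hj => ?_⟩
  · obtain ⟨g1, -⟩ := Pool.Agent.H223.PS.both (fun _ => {n : ℕ | ¬ (2 ≤ n ∧ Decided A n)}) (s := 1 / A) (by positivity)
      (fun _ ε hε => by
        obtain ⟨C, hC⟩ := AllIntegersInWindows.count (P := Decided A) (s := 1 / A) (by positivity)
          (SquareRootExceptions.Exceptions A) (by
            intro x n hnx hn2 hP
            refine ⟨hnx, hn2, fun hp => hP (Or.inl hp), fun hw => hP (Or.inr ?_)⟩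
            obtain ⟨b, hb1, hb2, hb3⟩ := hw
            exact ⟨b, hb1, hb2, hb3⟩)
          (fun ε hε => SquareRootExceptions.result A ε hA hε) ε hε
        refine ⟨C, fun X hX => ?_⟩
        convert hC X hX using 3
        ext t
        simp only [Finset.mem_filter])
    obtain ⟨E, e1, e2⟩ := g1 p σ hσ
    refine ⟨E, e1, fun α hα => ?_⟩
    obtain ⟨T₀, hT₀⟩ := e2 α hα 0
    refine ⟨T₀, fun T hT n hn2 hnT hn => ?_⟩
    by_contra hcon
    exact hT₀ T hT n hnT hn fun h => hcon h.2
  · have hs : 0 ≤ max (1 - 1 / (j : ℝ)) (1 / A) := le_trans (by positivity) (le_max_right _ _)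
    obtain ⟨g1, -⟩ := Pool.Agent.H223.PS.both
      (fun m : ℕ => {n : ℕ | ¬ (2 ≤ n ∧ Rich A (1 - 1 / 2 ^ j - 1 / ((m : ℝ) + 1)) n)}) hs
      (fun m ε hε => by
        have hm : (0 : ℝ) < 1 / ((m : ℝ) + 1) := by positivity
        obtain ⟨C, hC⟩ := AllIntegersInWindows.count (P := Rich A (1 - 1 / 2 ^ j - 1 / ((m : ℝ) + 1))) hs
          (ProportionOfPrimeWitnesses.Exceptions (1 - 1 / 2 ^ j - 1 / ((m : ℝ) + 1))
            (fun n => PrimesUpTo (2 * (Real.log n) ^ A))) (by
            intro x n hnx hn2 hP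
            refine ⟨hnx, hn2, fun hp => hP (Or.inl hp), ?_⟩
            by_contra hcon
            exact hP (Or.inr (not_lt.1 hcon)))
          (fun ε hε => (ProportionOfPrimeWitnesses.result j hj A (1 / ((m : ℝ) + 1)) ε hA hm hε).1) ε hε
        refine ⟨C, fun X hX => ?_⟩
        convert hC X hX using 3
        ext t
        simp only [Finset.mem_filter])
    obtain ⟨E, e1, e2⟩ := g1 p σ hσ
    refine ⟨E, e1, fun α hα δ hδ => ?_⟩
    obtain ⟨m, hm⟩ := exists_nat_ge (1 / δ)
    obtain ⟨T₀, hT₀⟩ := e2 α hα m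
    refine ⟨T₀, fun T hT n hn2 hnT hn => ?_⟩
    have hR : Rich A (1 - 1 / 2 ^ j - 1 / ((m : ℝ) + 1)) n := by
      by_contra hcon
      exact hT₀ T hT n hnT hn fun h => hcon h.2
    rcases hR with hp | hR
    · exact Or.inl hp
    · right
      refine le_trans (mul_le_mul_of_nonneg_right ?_ (Nat.cast_nonneg _)) hR
      have h3 : 1 / ((m : ℝ) + 1) ≤ δ := by
        rw [div_le_iff₀ (by positivity)]
        rw [div_le_iff₀ hδ] at hm
        nlinarith
      linarith

end Pool.Agent.Results.MP_0b15c0_nt.IntegersInResidueClasses
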