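import Pool.Agent.Results.MP_0b15c0_nt.AllIntegersInWindows
import Pool.Agent.V11001.KM.NatSet

/-!
# Small witnesses for the strong pseudoprimality test: all integers near the powers of almost every real number

Let `ν n / log n → ∞`, for example `ν n = n` or `ν n = n !`, and `A ≥ 2`. For all real `z > 1` outside a set of Hausdorff
dimension at most `(1 / A) / (1 - θ)`, EVERY large integer `m` with `|m - β z ^ (ν n)| ≤ z ^ (θ ν n)` for some `n` is prime or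
has a witness `1 < b ≤ 2 (log m) ^ A`; for other exceptional sets a positive proportion of the primes up to
`2 (log m) ^ A` are witnesses if `m` is composite.
-/

set_option autoImplicit false

open Finset Filter Topology

namespace Pool.Agent.Results.MP_0b15c0_nt.IntegersNearPowers

open ProportionOfPrimeWitnesses (IsWitness PrimesUpTo)
open AllIntegersInWindows (Rich Decided count)
open Pool.Agent.V11001.KM

/-- the statement for one property -/
lemma near_powers {P : ℕ → Prop} {s : ℝ} (hs : 0 ≤ s) (Exc : ℕ → Set ℕ)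
    (hExc : ∀ x n : ℕ, n ≤ x → 2 ≤ n → ¬ P n → n ∈ Exc x)
    (hcount : ∀ ε : ℝ, 0 < ε → ∃ K : ℝ, ∀ x : ℕ, 1 ≤ x → (Exc x).Finite ∧ ((Exc x).ncard : ℝ) ≤ K * (x : ℝ) ^ (s + ε))
    {ν : ℕ → ℝ} (hν : Fast ν) {θ : ℝ} (hθ : θ < 1) (U : Set ℝ) (hU : U.Countable) :
    ∃ E : Set ℝ, dimH E ≤ ENNReal.ofReal (s / (1 - θ)) ∧ ∀ z : ℝ, 1 < z → z ∉ E → ∀ β ∈ U, 0 < β →
      ∃ m₀ : ℝ, ∀ m : ℕ, m₀ ≤ m → Near ν θ β z m → P m := by
  classical
  obtain ⟨E, h1, h2⟩ := family_threshold (fun m : ℕ => (m : ℝ)) hν hs hθ U hU (J := Unit)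
    (fun _ => {n : ℕ | ¬ (2 ≤ n ∧ P n)}) (fun _ ε hε => count_of_nat _ hs hε (by
      obtain ⟨C, hC⟩ := count hs Exc hExc hcount ε hε
      refine ⟨C, fun X hX => le_trans (le_of_eq ?_) (hC X hX)⟩
      congr!))
  refine ⟨E, h1, fun z hz hzE β hβ hβ0 => ?_⟩
  obtain ⟨m₀, h3⟩ := h2 z hz hzE β hβ hβ0 ()
  refine ⟨m₀, fun m hm hn => ?_⟩
  by_contra hcon
  exact absurd (h3 m (fun h => hcon h.2) hn) (not_lt.2 hm)

/-- **Theorem.** Let `ν n / log n → ∞`, let `U` be a countable set of real numbers, `A ≥ 2` and `θ < 1`.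
(1) There is a set `E` of Hausdorff dimension at most `(1 / A) / (1 - θ)` such that for all `z > 1` outside `E` and all
positive `β` in `U` every large integer `m` with `|m - β z ^ (ν n)| ≤ z ^ (θ ν n)` for some `n` is prime or has a witness
`1 < b ≤ 2 (log m) ^ A`.
(2) For every `j ≥ 1` there is a set `E` of Hausdorff dimension at most `max (1 - 1 / j) (1 / A) / (1 - θ)` such that for all
`z > 1` outside `E`, all `δ > 0` and all positive `β` in `U` every large such `m` is prime or at least the proportion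
`1 - 2 ^ (-j) - δ` of the primes up to `2 (log m) ^ A` are witnesses for `m`. -/
theorem result (ν : ℕ → ℝ) (hν : Fast ν) (U : Set ℝ) (hU : U.Countable) (A : ℝ) (hA : 2 ≤ A) (θ : ℝ) (hθ : θ < 1) :
    (∃ E : Set ℝ, dimH E ≤ ENNReal.ofReal ((1 / A) / (1 - θ)) ∧ ∀ z : ℝ, 1 < z → z ∉ E → ∀ β ∈ U, 0 < β →
      ∃ m₀ : ℝ, ∀ m : ℕ, m₀ ≤ m → Near ν θ β z m → Decided A m) ∧
    (∀ j : ℕ, 1 ≤ j → ∃ E : Set ℝ, dimH E ≤ ENNReal.ofReal ((max (1 - 1 / (j : ℝ)) (1 / A)) / (1 - θ)) ∧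
      ∀ z : ℝ, 1 < z → z ∉ E → ∀ δ : ℝ, 0 < δ → ∀ β ∈ U, 0 < β →
        ∃ m₀ : ℝ, ∀ m : ℕ, m₀ ≤ m → Near ν θ β z m → Rich A (1 - 1 / 2 ^ j - δ) m) := by
  refine ⟨?_, fun j hj => ?_⟩
  · refine near_powers (P := Decided A) (by positivity) (SquareRootExceptions.Exceptions A) ?_
      (fun ε hε => SquareRootExceptions.result A ε hA hε) hν hθ U hU
    intro x n hnx hn2 hP
    refine ⟨hnx, hn2, fun hp => hP (Or.inl hp), fun hw => hP (Or.inr ?_)⟩
    obtain ⟨b, hb1, hb2, hb3⟩ := hw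
    exact ⟨b, hb1, hb2, hb3⟩
  · have hs : 0 ≤ max (1 - 1 / (j : ℝ)) (1 / A) := le_trans (by positivity) (le_max_right _ _)
    have hall : ∀ i : ℕ, ∃ E : Set ℝ, dimH E ≤ ENNReal.ofReal ((max (1 - 1 / (j : ℝ)) (1 / A)) / (1 - θ)) ∧
        ∀ z : ℝ, 1 < z → z ∉ E → ∀ β ∈ U, 0 < β → ∃ m₀ : ℝ, ∀ m : ℕ, m₀ ≤ m → Near ν θ β z m →
          Rich A (1 - 1 / 2 ^ j - 1 / ((i : ℝ) + 1)) m := by
      intro i
      have hm : (0 : ℝ) < 1 / ((i : ℝ) + 1) := by positivity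
      refine near_powers (P := Rich A (1 - 1 / 2 ^ j - 1 / ((i : ℝ) + 1))) hs
        (ProportionOfPrimeWitnesses.Exceptions (1 - 1 / 2 ^ j - 1 / ((i : ℝ) + 1))
          (fun n => PrimesUpTo (2 * (Real.log n) ^ A))) ?_
        (fun ε hε => (ProportionOfPrimeWitnesses.result j hj A (1 / ((i : ℝ) + 1)) ε hA hm hε).1) hν hθ U hU
      intro x n hnx hn2 hP
      refine ⟨hnx, hn2, fun hp => hP (Or.inl hp), ?_⟩
      by_contra hcon
      exact hP (Or.inr (not_lt.1 hcon))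
    choose E hE1 hE2 using hall
    refine ⟨⋃ i, E i, ?_, fun z hz hzE δ hδ β hβ hβ0 => ?_⟩
    · rw [dimH_iUnion]
      exact iSup_le hE1
    · obtain ⟨i, hi⟩ := exists_nat_ge (1 / δ)
      obtain ⟨m₀, hm⟩ := hE2 i z hz (fun h => hzE (Set.mem_iUnion.2 ⟨i, h⟩)) β hβ hβ0
      refine ⟨m₀, fun m hmm hn => ?_⟩
      rcases hm m hmm hn with hp | hR
      · exact Or.inl hp
      · right
        refine le_trans (mul_le_mul_of_nonneg_right ?_ (Nat.cast_nonneg _)) hR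
        have h3 : 1 / ((i : ℝ) + 1) ≤ δ := by
          rw [div_le_iff₀ (by positivity)]
          rw [div_le_iff₀ hδ] at hi
          nlinarith
        linarith

end Pool.Agent.Results.MP_0b15c0_nt.IntegersNearPowers
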